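import Pool.Agent.helper34.MO.SpecD

/-! MP_0631c5_co, row TR4: closed 4-walks of a triangulated polygon. -/

set_option autoImplicit false

open Complex Finset

namespace Pool.Agent.MO

theorem TR4_cyc {n : ℕ} (A B C D : Matrix (Fin n) (Fin n) ℝ) :
    (A * B * C * D).trace = (B * C * D * A).trace := by
  have h : A * B * C * D = A * (B * C * D) := by simp only [mul_assoc]
  rw [h, Matrix.trace_mul_comm]

theorem TR4_exp {n : ℕ} (P Q : Matrix (Fin n) (Fin n) ℝ) :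
    ((P + Q) * (P + Q) * (P + Q) * (P + Q)).trace =
      (P * P * P * P).trace + (Q * Q * Q * Q).trace + 4 * (P * P * P * Q).trace
      + 4 * (P * P * Q * Q).trace + 2 * (P * Q * P * Q).trace + 4 * (P * Q * Q * Q).trace := by
  have e : (P + Q) * (P + Q) * (P + Q) * (P + Q) =
      (P * P * P * P + Q * Q * Q * Q) +
      (P * P * P * Q + P * P * Q * P + P * Q * P * P + Q * P * P * P) +
      (P * P * Q * Q + P * Q * Q * P + Q * Q * P * P + Q * P * P * Q) +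
      (P * Q * P * Q + Q * P * Q * P) +
      (P * Q * Q * Q + Q * P * Q * Q + Q * Q * P * Q + Q * Q * Q * P) := by noncomm_ring
  rw [e]
  simp only [Matrix.trace_add]
  have a1 := TR4_cyc P P P Q
  have a2 := TR4_cyc P P Q P
  have a3 := TR4_cyc Q P P P
  have a4 := TR4_cyc P P Q Q
  have a5 := TR4_cyc P Q Q P
  have a6 := TR4_cyc Q P P Q
  have a7 := TR4_cyc Q P Q P
  have a8 := TR4_cyc Q P Q Q
  have a9 := TR4_cyc Q Q P Q
  have a10 := TR4_cyc Q Q Q P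
  linarith

/-- supported on `≤ k` -/
def TR4_lo {n : ℕ} (k : Fin n) (P : Matrix (Fin n) (Fin n) ℝ) : Prop :=
  ∀ x y, P x y ≠ 0 → x ≤ k ∧ y ≤ k

/-- supported on `≥ k` -/
def TR4_hi {n : ℕ} (k : Fin n) (P : Matrix (Fin n) (Fin n) ℝ) : Prop :=
  ∀ x y, P x y ≠ 0 → k ≤ x ∧ k ≤ y

theorem TR4_lomul {n : ℕ} {k : Fin n} {P Q : Matrix (Fin n) (Fin n) ℝ} (hP : TR4_lo k P)
    (hQ : TR4_lo k Q) : TR4_lo k (P * Q) := by
  intro x y h
  rw [Matrix.mul_apply] at h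
  obtain ⟨z, -, hz⟩ := Finset.exists_ne_zero_of_sum_ne_zero h
  exact ⟨(hP x z (left_ne_zero_of_mul hz)).1, (hQ z y (right_ne_zero_of_mul hz)).2⟩

theorem TR4_himul {n : ℕ} {k : Fin n} {P Q : Matrix (Fin n) (Fin n) ℝ} (hP : TR4_hi k P)
    (hQ : TR4_hi k Q) : TR4_hi k (P * Q) := by
  intro x y h
  rw [Matrix.mul_apply] at h
  obtain ⟨z, -, hz⟩ := Finset.exists_ne_zero_of_sum_ne_zero h
  exact ⟨(hP x z (left_ne_zero_of_mul hz)).1, (hQ z y (right_ne_zero_of_mul hz)).2⟩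

theorem TR4_prod {n : ℕ} {k : Fin n} {P Q : Matrix (Fin n) (Fin n) ℝ} (hP : TR4_lo k P)
    (hQ : TR4_hi k Q) (x y : Fin n) : (P * Q) x y = P x k * Q k y := by
  rw [Matrix.mul_apply]
  refine Finset.sum_eq_single k (fun z _ hz => ?_) (fun h => absurd (Finset.mem_univ k) h)
  by_contra hne
  have h1 := (hP x z (left_ne_zero_of_mul hne)).2
  have h2 := (hQ z y (right_ne_zero_of_mul hne)).1
  exact hz (le_antisymm h1 h2)

theorem TR4_tr {n : ℕ} {k : Fin n} {P Q : Matrix (Fin n) (Fin n) ℝ} (hP : TR4_lo k P)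
    (hQ : TR4_hi k Q) : (P * Q).trace = P k k * Q k k := by
  unfold Matrix.trace
  have h : ∀ x : Fin n, (P * Q).diag x = P x k * Q k x := fun x => TR4_prod hP hQ x x
  rw [Finset.sum_congr rfl fun x _ => h x]
  refine Finset.sum_eq_single k (fun z _ hz => ?_) (fun h => absurd (Finset.mem_univ k) h)
  by_contra hne
  have h1 := (hP z k (left_ne_zero_of_mul hne)).1
  have h2 := (hQ k z (right_ne_zero_of_mul hne)).2
  exact hz (le_antisymm h1 h2)

/-- gluing -/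
theorem TR4_glue {n : ℕ} {k : Fin n} {P Q : Matrix (Fin n) (Fin n) ℝ} (hP : TR4_lo k P)
    (hQ : TR4_hi k Q) (hP0 : P k k = 0) (hQ0 : Q k k = 0) :
    ((P + Q) * (P + Q) * (P + Q) * (P + Q)).trace =
      (P * P * P * P).trace + (Q * Q * Q * Q).trace + 4 * ((P * P) k k * (Q * Q) k k) := by
  rw [TR4_exp]
  have h1 : (P * P * P * Q).trace = 0 := by
    rw [TR4_tr (TR4_lomul (TR4_lomul hP hP) hP) hQ, hQ0, mul_zero]
  have h2 : (P * P * Q * Q).trace = (P * P) k k * (Q * Q) k k := by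
    rw [mul_assoc (P * P) Q Q, TR4_tr (TR4_lomul hP hP) (TR4_himul hQ hQ)]
  have h3 : (P * Q * Q * Q).trace = 0 := by
    have e : P * Q * Q * Q = P * (Q * Q * Q) := by simp only [mul_assoc]
    rw [e, TR4_tr hP (TR4_himul (TR4_himul hQ hQ) hQ), hP0, zero_mul]
  have h4 : (P * Q * P * Q).trace = 0 := by
    have e : P * Q * P * Q = P * (Q * P * Q) := by simp only [mul_assoc]
    have e2 : Q * P * Q = 0 := by
      ext x y
      have e3 : Q * P * Q = Q * (P * Q) := mul_assoc _ _ _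
      rw [e3, Matrix.mul_apply, Matrix.zero_apply]
      refine Finset.sum_eq_zero fun z _ => ?_
      rw [TR4_prod hP hQ]
      by_cases hz : z = k
      · rw [hz, hP0, zero_mul, mul_zero]
      · by_contra hne
        have h5 := (hQ x z (left_ne_zero_of_mul hne)).2
        have h6 := (hP z k (left_ne_zero_of_mul (right_ne_zero_of_mul hne))).1
        exact hz (le_antisymm h6 h5)
    rw [e, e2, mul_zero, Matrix.trace_zero]
  rw [h1, h2, h3, h4]
  ring

/-- the edge matrix -/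
noncomputable def TR4_E {n : ℕ} (i j : Fin n) : Matrix (Fin n) (Fin n) ℝ :=
  Matrix.single i j 1 + Matrix.single j i 1

theorem TR4_EE {n : ℕ} {i j : Fin n} (hij : i ≠ j) :
    TR4_E i j * TR4_E i j = Matrix.single i i 1 + Matrix.single j j 1 := by
  unfold TR4_E
  rw [add_mul, mul_add, mul_add, Matrix.single_mul_single_of_ne _ _ _ _ hij.symm,
    Matrix.single_mul_single_same, Matrix.single_mul_single_same,
    Matrix.single_mul_single_of_ne _ _ _ _ hij]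
  simp

theorem TR4_EEE {n : ℕ} {i j : Fin n} (hij : i ≠ j) :
    TR4_E i j * TR4_E i j * TR4_E i j = TR4_E i j := by
  rw [TR4_EE hij]
  unfold TR4_E
  rw [add_mul, mul_add, mul_add, Matrix.single_mul_single_same,
    Matrix.single_mul_single_of_ne _ _ _ _ hij, Matrix.single_mul_single_of_ne _ _ _ _ hij.symm,
    Matrix.single_mul_single_same]
  simp

theorem TR4_trE {n : ℕ} (i j : Fin n) (A : Matrix (Fin n) (Fin n) ℝ) :
    (A * TR4_E i j).trace = A j i + A i j := by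
  unfold TR4_E
  rw [mul_add, Matrix.trace_add, Matrix.trace_mul_single, Matrix.trace_mul_single]
  simp

theorem TR4_add {n : ℕ} {i j : Fin n} (hij : i ≠ j) (X : Matrix (Fin n) (Fin n) ℝ)
    (hii : X i i = 0) (hjj : X j j = 0) (hX : X i j = 0) (hX' : X j i = 0) :
    ((X + TR4_E i j) * (X + TR4_E i j) * (X + TR4_E i j) * (X + TR4_E i j)).trace =
      (X * X * X * X).trace + 4 * ((X * X * X) j i + (X * X * X) i j)
        + 4 * ((X * X) i i + (X * X) j j) + 2 := by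
  rw [TR4_exp]
  have h1 : (X * X * X * TR4_E i j).trace = (X * X * X) j i + (X * X * X) i j := TR4_trE i j _
  have h2 : (X * X * TR4_E i j * TR4_E i j).trace = (X * X) i i + (X * X) j j := by
    rw [mul_assoc (X * X), TR4_EE hij, mul_add, Matrix.trace_add, Matrix.trace_mul_single,
      Matrix.trace_mul_single]
    simp
  have h3 : (X * TR4_E i j * X * TR4_E i j).trace = 0 := by
    have e : X * TR4_E i j * X * TR4_E i j = X * (TR4_E i j * X * TR4_E i j) := by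
      simp only [mul_assoc]
    have e2 : TR4_E i j * X * TR4_E i j = 0 := by
      unfold TR4_E
      rw [add_mul, add_mul, mul_add, mul_add]
      simp [Matrix.single_mul_mul_single, hii, hjj, hX, hX']
    rw [e, e2, mul_zero, Matrix.trace_zero]
  have h4 : (X * TR4_E i j * TR4_E i j * TR4_E i j).trace = 0 := by
    have e : X * TR4_E i j * TR4_E i j * TR4_E i j = X * (TR4_E i j * TR4_E i j * TR4_E i j) := by
      simp only [mul_assoc]
    rw [e, TR4_EEE hij, TR4_trE, hX, hX', add_zero]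
  have h5 : (TR4_E i j * TR4_E i j * TR4_E i j * TR4_E i j).trace = 2 := by
    rw [TR4_EEE hij, TR4_EE hij, Matrix.trace_add, Matrix.trace_single_eq_same,
      Matrix.trace_single_eq_same]
    norm_num
  rw [h1, h2, h3, h4, h5]
  ring

/-- the data of a gluing of two branches at `k` -/
structure TR4_Gl {n : ℕ} (i k j : Fin n) (P Q : Matrix (Fin n) (Fin n) ℝ) : Prop where
  ik : i < k
  kj : k < j
  lo : TR4_lo k P
  hi : TR4_hi k Q
  p0 : ∀ x, P x x = 0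
  q0 : ∀ x, Q x x = 0
  ps : ∀ x y, P x y = P y x
  qs : ∀ x y, Q x y = Q y x
  pik : P i k = 1
  qkj : Q k j = 1

theorem TR4_Gl.Qi {n : ℕ} {i k j : Fin n} {P Q : Matrix (Fin n) (Fin n) ℝ}
    (h : TR4_Gl i k j P Q) (y : Fin n) : Q i y = 0 := by
  by_contra hne
  exact absurd (h.hi i y hne).1 (not_le.mpr h.ik)

theorem TR4_Gl.Qi' {n : ℕ} {i k j : Fin n} {P Q : Matrix (Fin n) (Fin n) ℝ}
    (h : TR4_Gl i k j P Q) (y : Fin n) : Q y i = 0 := by
  rw [h.qs]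
  exact h.Qi y

theorem TR4_Gl.Pj {n : ℕ} {i k j : Fin n} {P Q : Matrix (Fin n) (Fin n) ℝ}
    (h : TR4_Gl i k j P Q) (y : Fin n) : P y j = 0 := by
  by_contra hne
  exact absurd (h.lo y j hne).2 (not_le.mpr h.kj)

theorem TR4_Gl.Pj' {n : ℕ} {i k j : Fin n} {P Q : Matrix (Fin n) (Fin n) ℝ}
    (h : TR4_Gl i k j P Q) (y : Fin n) : P j y = 0 := by
  rw [h.ps]
  exact h.Pj y

theorem TR4_mul0 {n : ℕ} {A B : Matrix (Fin n) (Fin n) ℝ} {i : Fin n} (h : ∀ y, A i y = 0)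
    (y : Fin n) : (A * B) i y = 0 := by
  rw [Matrix.mul_apply]
  exact Finset.sum_eq_zero fun z _ => by rw [h, zero_mul]

theorem TR4_mul0' {n : ℕ} {A B : Matrix (Fin n) (Fin n) ℝ} {j : Fin n} (h : ∀ y, B y j = 0)
    (y : Fin n) : (A * B) y j = 0 := by
  rw [Matrix.mul_apply]
  exact Finset.sum_eq_zero fun z _ => by rw [h, mul_zero]

theorem TR4_symm2 {n : ℕ} {A : Matrix (Fin n) (Fin n) ℝ} (h : ∀ x y, A x y = A y x)
    (x y : Fin n) : (A * A) x y = (A * A) y x := by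
  rw [Matrix.mul_apply, Matrix.mul_apply]
  exact Finset.sum_congr rfl fun z _ => by rw [h x z, h z y, mul_comm]

theorem TR4_symm3 {n : ℕ} {A : Matrix (Fin n) (Fin n) ℝ} (h : ∀ x y, A x y = A y x)
    (x y : Fin n) : (A * A * A) x y = (A * A * A) y x := by
  have e : A * A * A = A * (A * A) := mul_assoc _ _ _
  nth_rewrite 1 [e]
  rw [Matrix.mul_apply, Matrix.mul_apply]
  exact Finset.sum_congr rfl fun z _ => by rw [h x z, TR4_symm2 h z y, mul_comm]

theorem TR4_X2ii {n : ℕ} {i k j : Fin n} {P Q : Matrix (Fin n) (Fin n) ℝ}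
    (h : TR4_Gl i k j P Q) : ((P + Q) * (P + Q)) i i = (P * P) i i := by
  rw [add_mul, mul_add, mul_add]
  simp only [Matrix.add_apply]
  rw [TR4_mul0' (A := P) h.Qi', TR4_mul0 (B := P) h.Qi, TR4_mul0 (B := Q) h.Qi]
  ring

theorem TR4_X2jj {n : ℕ} {i k j : Fin n} {P Q : Matrix (Fin n) (Fin n) ℝ}
    (h : TR4_Gl i k j P Q) : ((P + Q) * (P + Q)) j j = (Q * Q) j j := by
  rw [add_mul, mul_add, mul_add]
  simp only [Matrix.add_apply]
  rw [TR4_mul0' (A := P) h.Pj, TR4_mul0' (A := Q) h.Pj, TR4_mul0 (B := Q) h.Pj']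
  ring

theorem TR4_X2ij {n : ℕ} {i k j : Fin n} {P Q : Matrix (Fin n) (Fin n) ℝ}
    (h : TR4_Gl i k j P Q) : ((P + Q) * (P + Q)) i j = 1 := by
  rw [add_mul, mul_add, mul_add]
  simp only [Matrix.add_apply]
  rw [TR4_mul0' (A := P) h.Pj, TR4_mul0 (B := P) h.Qi, TR4_mul0 (B := Q) h.Qi,
    TR4_prod h.lo h.hi, h.pik, h.qkj]
  ring

theorem TR4_X3ij {n : ℕ} {i k j : Fin n} {P Q : Matrix (Fin n) (Fin n) ℝ}
    (h : TR4_Gl i k j P Q) : ((P + Q) * (P + Q) * (P + Q)) i j = (P * P) i k + (Q * Q) k j := by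
  have e : (P + Q) * (P + Q) * (P + Q) = (P * P * Q + P * (Q * Q)) +
      ((P * P) * P + (P * Q) * P + Q * (P * P) + Q * (P * Q) + Q * (Q * P) + Q * (Q * Q)) := by
    noncomm_ring
  rw [e]
  simp only [Matrix.add_apply]
  rw [TR4_prod (TR4_lomul h.lo h.lo) h.hi, TR4_prod h.lo (TR4_himul h.hi h.hi), h.pik, h.qkj,
    TR4_mul0' (A := P * P) h.Pj, TR4_mul0' (A := P * Q) h.Pj, TR4_mul0 (B := P * P) h.Qi,
    TR4_mul0 (B := P * Q) h.Qi, TR4_mul0 (B := Q * P) h.Qi, TR4_mul0 (B := Q * Q) h.Qi]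
  ring

theorem TR4_step {n : ℕ} {i k j : Fin n} {P Q : Matrix (Fin n) (Fin n) ℝ}
    (h : TR4_Gl i k j P Q) :
    ((P + Q + TR4_E i j) * (P + Q + TR4_E i j) * (P + Q + TR4_E i j) *
      (P + Q + TR4_E i j)).trace =
      (P * P * P * P).trace + (Q * Q * Q * Q).trace + 4 * ((P * P) k k * (Q * Q) k k)
        + 8 * ((P * P) i k + (Q * Q) k j) + 4 * ((P * P) i i + (Q * Q) j j) + 2 := by
  have hij : i ≠ j := (h.ik.trans h.kj).ne
  have hs : ∀ x y, (P + Q) x y = (P + Q) y x := by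
    intro x y
    simp only [Matrix.add_apply]
    rw [h.ps, h.qs]
  have e1 : (P + Q) i i = 0 := by
    rw [Matrix.add_apply, h.p0, h.q0, add_zero]
  have e2 : (P + Q) j j = 0 := by
    rw [Matrix.add_apply, h.p0, h.q0, add_zero]
  have e3 : (P + Q) i j = 0 := by
    rw [Matrix.add_apply, h.Pj, h.Qi, add_zero]
  rw [TR4_add hij (P + Q) e1 e2 e3 ((hs j i).trans e3), TR4_glue h.lo h.hi (h.p0 k) (h.q0 k),
    TR4_symm3 hs j i, TR4_X3ij h, TR4_X2ii h, TR4_X2jj h]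
  ring

theorem TR4_deg {n : ℕ} {i k j : Fin n} {P Q : Matrix (Fin n) (Fin n) ℝ}
    (h : TR4_Gl i k j P Q) :
    ((P + Q + TR4_E i j) * (P + Q + TR4_E i j)) i i = (P * P) i i + 1 ∧
    ((P + Q + TR4_E i j) * (P + Q + TR4_E i j)) j j = (Q * Q) j j + 1 ∧
    ((P + Q + TR4_E i j) * (P + Q + TR4_E i j)) i j = 1 := by
  have hij : i ≠ j := (h.ik.trans h.kj).ne
  have hX : ∀ x, (P + Q) x x = 0 := by
    intro x
    rw [Matrix.add_apply, h.p0, h.q0, add_zero]
  have e3 : (P + Q) i j = 0 := by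
    rw [Matrix.add_apply, h.Pj, h.Qi, add_zero]
  have e4 : (P + Q) j i = 0 := by
    rw [Matrix.add_apply, h.Pj', h.Qi', add_zero]
  have a1 := TR4_X2ii h
  have a2 := TR4_X2jj h
  have a3 := TR4_X2ij h
  obtain ⟨X, hXdef⟩ : ∃ X, X = P + Q := ⟨_, rfl⟩
  rw [← hXdef] at hX e3 e4 a1 a2 a3 ⊢
  have e5 : (X + TR4_E i j) * (X + TR4_E i j) = X * X + X * TR4_E i j + TR4_E i j * X +
      TR4_E i j * TR4_E i j := by noncomm_ring
  rw [e5, TR4_EE hij]
  unfold TR4_E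
  rw [mul_add, add_mul]
  simp only [Matrix.add_apply]
  refine ⟨?_, ?_, ?_⟩
  · rw [a1]
    simp [hij, hij.symm, e3, e4, hX, Matrix.single_apply]
  · rw [a2]
    simp [hij, hij.symm, e3, e4, hX, Matrix.single_apply]
  · rw [a3]
    simp [hij, hij.symm, e3, e4, hX, Matrix.single_apply]

/-- the branch with its port edge -/
noncomputable def TR4_B (t : Tr) (i x y : ℕ) : ℝ :=
  (if (x = i ∧ y = i + t.sz + 1) ∨ (x = i + t.sz + 1 ∧ y = i) then 1 else 0) + AT t i x y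

/-- its matrix -/
noncomputable def TR4_M (n : ℕ) (t : Tr) (i : ℕ) : Matrix (Fin n) (Fin n) ℝ :=
  Matrix.of fun x y => TR4_B t i x.1 y.1

theorem TR4_Brec (l r : Tr) (i x y : ℕ) : TR4_B (.nd l r) i x y =
    TR4_B l i x y + TR4_B r (i + l.sz + 1) x y +
    (if (x = i ∧ y = i + (Tr.nd l r).sz + 1) ∨ (x = i + (Tr.nd l r).sz + 1 ∧ y = i) then 1
      else 0) := by
  unfold TR4_B
  have hs : (Tr.nd l r).sz = l.sz + r.sz + 1 := rfl
  have ha : AT (.nd l r) i x y =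
      (if (x = i ∧ y = i + l.sz + 1) ∨ (x = i + l.sz + 1 ∧ y = i) ∨
        (x = i + l.sz + 1 ∧ y = i + l.sz + 1 + r.sz + 1) ∨
        (x = i + l.sz + 1 + r.sz + 1 ∧ y = i + l.sz + 1)
      then 1 else 0) + AT l i x y + AT r (i + l.sz + 1) x y := rfl
  rw [ha, hs]
  have hc : (if (x = i ∧ y = i + l.sz + 1) ∨ (x = i + l.sz + 1 ∧ y = i) ∨
        (x = i + l.sz + 1 ∧ y = i + l.sz + 1 + r.sz + 1) ∨
        (x = i + l.sz + 1 + r.sz + 1 ∧ y = i + l.sz + 1)
      then (1 : ℝ) else 0) =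
      (if (x = i ∧ y = i + l.sz + 1) ∨ (x = i + l.sz + 1 ∧ y = i) then 1 else 0) +
      (if (x = i + l.sz + 1 ∧ y = i + l.sz + 1 + r.sz + 1) ∨
        (x = i + l.sz + 1 + r.sz + 1 ∧ y = i + l.sz + 1) then 1 else 0) := by
    by_cases h1 : (x = i ∧ y = i + l.sz + 1) ∨ (x = i + l.sz + 1 ∧ y = i)
    · have h2 : ¬ ((x = i + l.sz + 1 ∧ y = i + l.sz + 1 + r.sz + 1) ∨
        (x = i + l.sz + 1 + r.sz + 1 ∧ y = i + l.sz + 1)) := by omega
      have h3 : (x = i ∧ y = i + l.sz + 1) ∨ (x = i + l.sz + 1 ∧ y = i) ∨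
        (x = i + l.sz + 1 ∧ y = i + l.sz + 1 + r.sz + 1) ∨
        (x = i + l.sz + 1 + r.sz + 1 ∧ y = i + l.sz + 1) := by tauto
      rw [if_pos h1, if_neg h2, if_pos h3, add_zero]
    · by_cases h2 : (x = i + l.sz + 1 ∧ y = i + l.sz + 1 + r.sz + 1) ∨
        (x = i + l.sz + 1 + r.sz + 1 ∧ y = i + l.sz + 1)
      · have h3 : (x = i ∧ y = i + l.sz + 1) ∨ (x = i + l.sz + 1 ∧ y = i) ∨
          (x = i + l.sz + 1 ∧ y = i + l.sz + 1 + r.sz + 1) ∨
          (x = i + l.sz + 1 + r.sz + 1 ∧ y = i + l.sz + 1) := by tauto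
        rw [if_neg h1, if_pos h2, if_pos h3, zero_add]
      · have h3 : ¬ ((x = i ∧ y = i + l.sz + 1) ∨ (x = i + l.sz + 1 ∧ y = i) ∨
          (x = i + l.sz + 1 ∧ y = i + l.sz + 1 + r.sz + 1) ∨
          (x = i + l.sz + 1 + r.sz + 1 ∧ y = i + l.sz + 1)) := by tauto
        rw [if_neg h1, if_neg h2, if_neg h3, add_zero]
  rw [hc]
  ring

/-- the edge as a matrix -/
theorem TR4_Eap {n : ℕ} {i j : Fin n} (hij : i ≠ j) (x y : Fin n) : TR4_E i j x y =
    if (x.1 = i.1 ∧ y.1 = j.1) ∨ (x.1 = j.1 ∧ y.1 = i.1) then 1 else 0 := by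
  unfold TR4_E
  rw [Matrix.add_apply, Matrix.single_apply, Matrix.single_apply]
  simp only [← Fin.ext_iff]
  by_cases h1 : x = i ∧ y = j
  · have h2 : ¬ (j = x ∧ i = y) := fun h => hij (h1.1.symm.trans h.1.symm)
    rw [if_pos ⟨h1.1.symm, h1.2.symm⟩, if_neg h2, if_pos (Or.inl h1), add_zero]
  · have h1' : ¬ (i = x ∧ j = y) := fun h => h1 ⟨h.1.symm, h.2.symm⟩
    rw [if_neg h1']
    by_cases h2 : x = j ∧ y = i
    · rw [if_pos ⟨h2.1.symm, h2.2.symm⟩, if_pos (Or.inr h2), zero_add]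
    · have h2' : ¬ (j = x ∧ i = y) := fun h => h2 ⟨h.1.symm, h.2.symm⟩
      rw [if_neg h2', if_neg (by tauto), add_zero]

theorem TR4_Bsymm (hATS : ATS_stmt) (t : Tr) (i x y : ℕ) : TR4_B t i x y = TR4_B t i y x := by
  unfold TR4_B
  rw [(hATS.1 t i x y).1]
  have : ((x = i ∧ y = i + t.sz + 1) ∨ (x = i + t.sz + 1 ∧ y = i)) ↔
      ((y = i ∧ x = i + t.sz + 1) ∨ (y = i + t.sz + 1 ∧ x = i)) := by tauto
  simp only [this]

theorem TR4_Bsupp (hATS : ATS_stmt) (t : Tr) (i x y : ℕ) (h : TR4_B t i x y ≠ 0) :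
    i ≤ x ∧ x ≤ i + t.sz + 1 ∧ i ≤ y ∧ y ≤ i + t.sz + 1 := by
  by_contra hcon
  apply h
  unfold TR4_B
  have h1 : AT t i x y = 0 := by
    by_contra h2
    exact hcon ((hATS.1 t i x y).2.2.2.1 h2)
  rw [h1, if_neg (by omega), add_zero]

theorem TR4_B0 (hATS : ATS_stmt) (t : Tr) (i x : ℕ) : TR4_B t i x x = 0 := by
  unfold TR4_B
  rw [(hATS.1 t i x x).2.2.1, if_neg (by omega), add_zero]

theorem TR4_Bport (hATS : ATS_stmt) (t : Tr) (i : ℕ) : TR4_B t i i (i + t.sz + 1) = 1 := by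
  unfold TR4_B
  rw [(hATS.1 t i i i).2.2.2.2, if_pos (Or.inl ⟨rfl, rfl⟩), add_zero]

theorem TR4_main (hATS : ATS_stmt) (n : ℕ) (t : Tr) : ∀ (i : ℕ) (hi : i < n)
    (hj : i + t.sz + 1 < n),
    (TR4_M n t i * TR4_M n t i) ⟨i, hi⟩ ⟨i, hi⟩ = (t.ls : ℝ) + 1 ∧
    (TR4_M n t i * TR4_M n t i) ⟨i + t.sz + 1, hj⟩ ⟨i + t.sz + 1, hj⟩ = (t.rs : ℝ) + 1 ∧
    (TR4_M n t i * TR4_M n t i) ⟨i, hi⟩ ⟨i + t.sz + 1, hj⟩ = (if t = .e then 0 else 1 : ℕ) ∧
    (TR4_M n t i * TR4_M n t i * TR4_M n t i * TR4_M n t i).trace = w4 t := by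
  induction t with
  | e =>
    intro i hi hj
    have hij : (⟨i, hi⟩ : Fin n) ≠ ⟨i + Tr.e.sz + 1, hj⟩ := by
      intro h
      have := congrArg Fin.val h
      simp only at this
      omega
    have hM : TR4_M n .e i = TR4_E ⟨i, hi⟩ ⟨i + Tr.e.sz + 1, hj⟩ := by
      ext x y
      rw [TR4_Eap hij]
      show TR4_B .e i x.1 y.1 = _
      unfold TR4_B AT
      rw [add_zero]
    rw [hM, TR4_EEE hij, TR4_EE hij]
    refine ⟨?_, ?_, ?_, ?_⟩
    · rw [Matrix.add_apply, Matrix.single_apply_same, Matrix.single_apply_of_ne _ _ _ _ _ (by tauto)]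
      simp [Tr.ls]
    · rw [Matrix.add_apply, Matrix.single_apply_same, Matrix.single_apply_of_ne _ _ _ _ _ (by tauto)]
      simp [Tr.rs]
    · rw [Matrix.add_apply, Matrix.single_apply_of_ne _ _ _ _ _ (by tauto),
        Matrix.single_apply_of_ne _ _ _ _ _ (by tauto)]
      simp
    · rw [Matrix.trace_add, Matrix.trace_single_eq_same, Matrix.trace_single_eq_same]
      simp only [w4]
      norm_num
  | nd l r ihl ihr =>
    intro i hi hj
    have hsz : (Tr.nd l r).sz = l.sz + r.sz + 1 := rfl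
    have hk : i + l.sz + 1 < n := by omega
    have hj' : i + l.sz + 1 + r.sz + 1 < n := by omega
    have ejj : (⟨i + (Tr.nd l r).sz + 1, hj⟩ : Fin n) = ⟨i + l.sz + 1 + r.sz + 1, hj'⟩ := by
      apply Fin.ext
      simp only
      omega
    obtain ⟨l1, l2, l3, l4⟩ := ihl i hi hk
    obtain ⟨r1, r2, r3, r4⟩ := ihr (i + l.sz + 1) hk hj'
    have hij : (⟨i, hi⟩ : Fin n) ≠ ⟨i + (Tr.nd l r).sz + 1, hj⟩ := by
      intro h
      have := congrArg Fin.val h
      simp only at this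
      omega
    have hM : TR4_M n (.nd l r) i = TR4_M n l i + TR4_M n r (i + l.sz + 1) +
        TR4_E ⟨i, hi⟩ ⟨i + (Tr.nd l r).sz + 1, hj⟩ := by
      ext x y
      rw [Matrix.add_apply, Matrix.add_apply, TR4_Eap hij]
      exact TR4_Brec l r i x.1 y.1
    have hG : TR4_Gl ⟨i, hi⟩ ⟨i + l.sz + 1, hk⟩ ⟨i + (Tr.nd l r).sz + 1, hj⟩
        (TR4_M n l i) (TR4_M n r (i + l.sz + 1)) := by
      refine ⟨?_, ?_, ?_, ?_, ?_, ?_, ?_, ?_, ?_, ?_⟩
      · rw [Fin.lt_def]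
        simp only
        omega
      · rw [Fin.lt_def]
        simp only
        omega
      · intro x y h
        have h1 := TR4_Bsupp hATS l i x.1 y.1 h
        exact ⟨h1.2.1, h1.2.2.2⟩
      · intro x y h
        have h1 := TR4_Bsupp hATS r (i + l.sz + 1) x.1 y.1 h
        exact ⟨h1.1, h1.2.2.1⟩
      · intro x
        exact TR4_B0 hATS _ _ _
      · intro x
        exact TR4_B0 hATS _ _ _
      · intro x y
        exact TR4_Bsymm hATS _ _ _ _
      · intro x y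
        exact TR4_Bsymm hATS _ _ _ _
      · exact TR4_Bport hATS l i
      · rw [ejj]
        exact TR4_Bport hATS r (i + l.sz + 1)
    obtain ⟨d1, d2, d3⟩ := TR4_deg hG
    have hw := TR4_step hG
    rw [← hM] at d1 d2 d3 hw
    rw [ejj] at d2 d3 hw ⊢
    refine ⟨?_, ?_, ?_, ?_⟩
    · rw [d1, l1]
      simp [Tr.ls]
    · rw [d2, r2]
      simp [Tr.rs]
    · rw [d3]
      simp
    · rw [hw, l1, l2, l3, l4, r1, r2, r3, r4]
      have e4 : w4 (.nd l r) = w4 l + w4 r + 4 * (l.rs + 1) * (r.ls + 1) +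
        8 * ((if l = .e then 0 else 1) + (if r = .e then 0 else 1))
          + 4 * (l.ls + 1 + (r.rs + 1)) + 2 := rfl
      rw [e4]
      push_cast
      ring

theorem TR4 (hATS : ATS_stmt) : TR4_stmt := by
  intro τ
  have h0 : 0 < τ.sz + 2 := by omega
  have h1 : 0 + τ.sz + 1 < τ.sz + 2 := by omega
  obtain ⟨-, -, -, h⟩ := TR4_main hATS (τ.sz + 2) τ 0 h0 h1
  have hAG : ∀ x y : ℕ, AG τ x y = TR4_B τ 0 x y := by
    intro x y
    unfold AG TR4_B
    rw [zero_add]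
  rw [← h]
  obtain ⟨M, hM⟩ : ∃ M, M = TR4_M (τ.sz + 2) τ 0 := ⟨_, rfl⟩
  rw [← hM]
  have hsym : ∀ x y, M x y = M y x := by
    intro x y
    rw [hM]
    exact TR4_Bsymm hATS _ _ _ _
  have e1 : M * M * M * M = (M * M) * (M * M) := by simp only [mul_assoc]
  rw [e1]
  unfold Matrix.trace
  rw [Finset.sum_range]
  refine Finset.sum_congr rfl fun x _ => ?_
  rw [Finset.sum_range, Matrix.diag_apply, Matrix.mul_apply]
  refine Finset.sum_congr rfl fun y _ => ?_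
  rw [Finset.sum_range, TR4_symm2 hsym y x, ← sq, Matrix.mul_apply]
  simp only [hAG, hM]
  rfl

end Pool.Agent.MO
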